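import Pool.Agent.H98.SD.BEY
import Pool.Agent.H98.SD.NuK

/-!
# SecondDichotomy (MP_e37c09_lc): one-to-one functions which are definable from a parameter in a
small ordinal definable set (the argument of row BEX of helper98, with a weaker hypothesis)
-/

open Ordinal Cardinal Order Set
open scoped ZFSet

universe u

namespace Pool.Agent.H59.SD2

open _root_.HD _root_.HD.SD Pool.Agent.H45.NF
open _root_.HD.NF (w0)
open Pool.Agent.H98.SD.B
open Pool.Agent.H54.SD.NMX (odp_of1)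
open Pool.Agent.H81.SD (Jt)

/-- the value of an OD_x function at an ordinal is OD_x -/
theorem odp_val {c F : ZFSet.{u}} (l i : Ordinal.{u}) (hF : NF.ODp c F) :
    NF.ODp c (os l {a | ∃ z, ZFSet.pair i.toZFSet z ∈ F ∧ a.toZFSet ∈ z}) := by
  refine odp_of1 hF (Q := fun v => ∀ b, b ∈ v 0 ↔ b ∈ l.toZFSet ∧
    ∃ z, ZFSet.pair i.toZFSet z ∈ v 1 ∧ b ∈ z) ?_ fun w => ?_
  · refine DZ.all ((DZ.mem 0 1).iff (DZ.and
      (DZ.od (R := fun k v => v 0 ∈ k) (OD.ordinal l) (DZ.mem 1 0)) (DZ.ex (DZ.and ?_ (DZ.mem 1 0)))))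
    exact DZ.od (R := fun k v => ZFSet.pair k (v 0) ∈ v 3) (OD.ordinal i) (loc_pmem 0 1 4).dz
  · constructor
    · intro h
      ext b
      rw [show (b ∈ w ↔ b ∈ l.toZFSet ∧ ∃ z, ZFSet.pair i.toZFSet z ∈ F ∧ b ∈ z) from h b]
      constructor
      · rintro ⟨h1, h2⟩
        obtain ⟨a, ha, rfl⟩ := mem_toZFSet_iff.1 h1
        exact ord_mem_os.2 ⟨ha, h2⟩
      · intro h1
        have h2 : b ∈ l.toZFSet := (ZFSet.mem_sep.1 h1).1
        obtain ⟨a, ha, rfl⟩ := mem_toZFSet_iff.1 h2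
        exact ⟨h2, (ord_mem_os.1 h1).2⟩
    · rintro rfl b
      show b ∈ os l {a | ∃ z, ZFSet.pair i.toZFSet z ∈ F ∧ a.toZFSet ∈ z} ↔ _
      constructor
      · intro h1
        have h2 : b ∈ l.toZFSet := (ZFSet.mem_sep.1 h1).1
        obtain ⟨a, ha, rfl⟩ := mem_toZFSet_iff.1 h2
        exact ⟨h2, (ord_mem_os.1 h1).2⟩
      · rintro ⟨h1, h2⟩
        obtain ⟨a, ha, rfl⟩ := mem_toZFSet_iff.1 h1
        exact ord_mem_os.2 ⟨ha, h2⟩

/-- an injection gives `L⁺` least codes -/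
theorem large_of_inj {en : Ordinal.{u} → ZFSet.{u}} (hen : EN en) {L : Cardinal.{u}}
    {x : ZFSet.{u}} (h : InjX L x) : ∀ i < (succ L).ord, ∃ c, nth {c | Jt en L.ord x c} i c := by
  obtain ⟨F, hF, hFf, hFi⟩ := h
  refine Pool.Agent.H81.SD.large_of hen
    (fun i => {a | ∃ z, ZFSet.pair i.toZFSet z ∈ F ∧ a.toZFSet ∈ z})
    (fun i _ => odp_val L.ord i hF) fun i hi k hk he => ?_
  obtain ⟨z, hz, hz'⟩ := hFf.2 i.toZFSet (mem_toZFSet_iff.2 ⟨i, hi, rfl⟩)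
  obtain ⟨y, hy, hy'⟩ := hFf.2 k.toZFSet (mem_toZFSet_iff.2 ⟨k, hk, rfl⟩)
  have hzL : z ⊆ L.ord.toZFSet := ZFSet.mem_powerset.1 (ZFSet.pair_mem_prod.1 (hFf.1 hz)).2
  have hyL : y ⊆ L.ord.toZFSet := ZFSet.mem_powerset.1 (ZFSet.pair_mem_prod.1 (hFf.1 hy)).2
  have hzy : z = y := by
    ext b
    constructor
    · intro hb
      obtain ⟨a, ha, rfl⟩ := mem_toZFSet_iff.1 (hzL hb)
      obtain ⟨y2, h1, h2⟩ := (he a ha).1 ⟨z, hz, hb⟩
      rwa [← hy' y2 h1]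
    · intro hb
      obtain ⟨a, ha, rfl⟩ := mem_toZFSet_iff.1 (hyL hb)
      obtain ⟨z2, h1, h2⟩ := (he a ha).2 ⟨y, hy, hb⟩
      rwa [← hz' z2 h1]
  subst hzy
  rcases lt_trichotomy i k with h1 | h1 | h1
  · exact absurd hy (hFi i k z h1 hk hz)
  · exact h1
  · exact absurd hz (hFi k i z h1 hi hy)

/-- SMI. If `x` is in a small ordinal definable set then an injection which is definable from
ordinals and `x` gives one which is definable from ordinals. -/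
theorem sm_inj (hDXS : T_DXS.{u}) (hDXN : T_DXN.{u}) (hCOM : T_COM.{u}) (hODY : T_ODY.{u})
    {L : Cardinal.{u}} (hL : ℵ₀ < L) (hlim : ∀ c < L, (2 : Cardinal.{u}) ^ c < L) {x : ZFSet.{u}}
    (hx : SmX L x) (hI : InjX L x) : InjX L ∅ := by
  obtain ⟨en, hen⟩ := All.en.{u}
  obtain ⟨t, p1, p2, p3⟩ := All.pr.{u}
  have ht : PF t := ⟨p1, p2, p3⟩
  obtain ⟨B, hB, hxB, τ, hτ, g, hg⟩ := hx
  have h0 := (hDXS en hen).1
  have hL0 : (0 : Ordinal.{u}) < L.ord := by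
    have := Cardinal.ord_lt_ord.2 hL
    exact lt_of_le_of_lt bot_le this
  have hBx : DX.{u} fun y _ => y ∈ B := by
    have hb : DZ.{u} fun v => v 0 ∈ B := DZ.od (R := fun k v => v 0 ∈ k) hB (DZ.mem 1 0)
    exact DX.z hb
  have hz : ∀ j : ℕ, DX.{u} fun y w => (0 : Ordinal.{u}) ∈ Sc en y (w j) := fun j =>
    DX.sub (S := fun a y w => a ∈ Sc en y (w j)) 0 (h0.ren fun n => if n = 0 then 0 else j + 1)
  -- the least codes of the subsets of `B`
  let E : Set Ordinal.{u} := {e | ∀ e', e' < e → ¬ ∀ y, y ∈ B → (0 ∈ Sc en y e ↔ 0 ∈ Sc en y e')}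
  have hE : DO.{u} fun w => w 0 ∈ E := by
    refine DO.all (R := fun e' w => e' < w 0 → ¬ ∀ y, y ∈ B →
      (0 ∈ Sc en y (w 0) ↔ 0 ∈ Sc en y e')) ?_
    refine (DO.lt 0 1).imp (DO.not ?_)
    exact DX.allS (P := fun y w => y ∈ B → (0 ∈ Sc en y (w 1) ↔ 0 ∈ Sc en y (w 0)))
      (hBx.imp ((hz 1).iff (hz 0)))
  have hEf : Few L.ord E := by
    refine few_pow hlim hτ E (fun e => {i | 0 ∈ Sc en (g i) e}) fun e he e' he' h => ?_
    have h1 : ∀ y, y ∈ B → (0 ∈ Sc en y e ↔ 0 ∈ Sc en y e') := fun y hy => by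
      obtain ⟨i, hi, rfl⟩ := hg y hy
      exact h i hi
    rcases lt_trichotomy e e' with h2 | h2 | h2
    · exact absurd (fun y hy => (h1 y hy).symm) (he' e h2)
    · exact h2
    · exact absurd h1 (he e' h2)
  obtain ⟨ρ, hρ, e1, e2⟩ := enum hEf
  -- the code of the `l`-th section
  let Cd : Ordinal.{u} → Ordinal.{u} → Ordinal.{u} → Prop := fun c e l =>
    ∀ y, y ∈ B → (0 ∈ Sc en y e ↔ l ∈ Sc en y c)
  have hCd : ∀ c l, ∃ n < L.ord, ∃ e, nth E n e ∧ Cd c e l := by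
    intro c l
    have hP : DX.{u} fun y w => w 1 ∈ Sc en y (w 2) := h0.ren fun n => if n = 0 then 1 else 2
    obtain ⟨e0, he0⟩ := hCOM en hen (fun y w => w 1 ∈ Sc en y (w 2)) hP B.rank 1
      (fun n => if n = 0 then l else c)
    have hne : ({e | Cd c e l} : Set Ordinal.{u}).Nonempty := by
      refine ⟨e0, fun y hy => ?_⟩
      have hyV : y ∈ V_ B.rank := by
        rw [ZFSet.mem_vonNeumann]
        exact ZFSet.rank_lt_of_mem hy
      rw [he0 y hyV 0]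
      exact ⟨fun h => h.2, fun h => ⟨zero_lt_one, h⟩⟩
    have hm : Cd c (sInf {e | Cd c e l}) l := csInf_mem hne
    have hEm : sInf {e | Cd c e l} ∈ E := fun e' he' h => by
      have : Cd c e' l := fun y hy => (h y hy).symm.trans (hm y hy)
      exact absurd (csInf_le' (s := {e | Cd c e l}) this) (not_le.2 he')
    obtain ⟨n, hn, hne⟩ := e2 _ hEm
    exact ⟨n, hn.trans hρ, _, hne, hm⟩
  -- the sets
  have hnth : DX.{u} fun _ w => nth {b | b ∈ E} (w 0) (w 1) := hDXN (fun _ w => w 0 ∈ E) (DX.o hE)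
  have hZ : DX.{u} fun (_ : ZFSet.{u}) w => ∃ l, ∃ n, ∃ e, w 0 = t l n ∧ nth {b | b ∈ E} n e ∧
      Cd (w 1) e l := by
    refine DX.ex (S := fun l _ w => ∃ n, ∃ e, w 0 = t l n ∧ nth {b | b ∈ E} n e ∧
      Cd (w 1) e l) ?_
    refine DX.ex (S := fun n _ w => ∃ e, w 1 = t (w 0) n ∧ nth {b | b ∈ E} n e ∧
      Cd (w 2) e (w 0)) ?_
    refine DX.ex (S := fun e _ w => w 2 = t (w 1) (w 0) ∧ nth {b | b ∈ E} (w 0) e ∧
      Cd (w 3) e (w 1)) ?_
    refine DX.and ?_ (DX.and ?_ ?_)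
    · exact DX.o (ht.dz.ren fun n => if n = 0 then 2 else if n = 1 then 1 else 3)
    · exact hnth.ren fun n => if n = 0 then 1 else 0
    · refine DX.o (DX.allS (P := fun y w => y ∈ B → (0 ∈ Sc en y (w 0) ↔ w 2 ∈ Sc en y (w 4))) ?_)
      exact hBx.imp ((hz 0).iff (h0.ren fun n => if n = 0 then 2 else 4))
  have hlg := large_of_inj hen hI
  have hc : ∀ i, ∃ c, i < (succ L).ord → nth {c | Pool.Agent.H81.SD.Jt en L.ord x c} i c := by
    intro i
    by_cases hi : i < (succ L).ord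
    · obtain ⟨c, hc⟩ := hlg i hi
      exact ⟨c, fun _ => hc⟩
    · exact ⟨0, fun h => absurd h hi⟩
  choose c hc using hc
  refine Pool.Agent.H81.SD.inj_of_large hDXS hDXN hen (Pool.Agent.H81.SD.large_of hen
    (fun i => {v | ∃ l, ∃ n, ∃ e, v = t l n ∧ nth {b | b ∈ E} n e ∧ Cd (c i) e l})
    (fun i _ => hODY _ hZ ∅ L.ord (fun _ => c i)) fun i hi k hk h => ?_)
  -- equal sets give equal traces
  have htr : ∀ l < L.ord, (l ∈ Sc en x (c i) ↔ l ∈ Sc en x (c k)) := by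
    intro l hl
    obtain ⟨n, hn, e, h1, h2⟩ := hCd (c i) l
    have h3 := (h (t l n) (ht.lt L hL.le l hl n hn)).1 ⟨l, n, e, rfl, h1, h2⟩
    obtain ⟨l', n', e', h4, h5, h6⟩ := h3
    obtain ⟨rfl, rfl⟩ := ht.inj _ _ _ _ h4
    obtain rfl := nth_val h1 h5
    exact (h2 x hxB).symm.trans (h6 x hxB)
  have hci := hc i hi
  have hck := hc k hk
  rcases lt_trichotomy (c i) (c k) with h1 | h1 | h1
  · obtain ⟨a, ha, hne⟩ := hck.1 _ h1
    exact absurd (htr a ha).symm hne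
  · rw [h1] at hci
    exact nth_idx hci hck
  · obtain ⟨a, ha, hne⟩ := hci.1 _ h1
    exact absurd (htr a ha) hne


end Pool.Agent.H59.SD2
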